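import Pool.Agent.X155.DihU

/-! MP_c51eea_al, Q1: a dihedral group `D` of order `2 ^ k ≥ 16` is a nonabelian 2-group such that
`D × H` is not realizable for every 2-group `H`. -/

namespace Pool.Agent.Results.MP_c51eea_al.DihedralFactors

/-- `G` is realizable: it is isomorphic to the unit group of a finite ring. -/
def Realizable (G : Type) [Group G] : Prop :=
  ∃ (R : Type) (_ : Ring R), Finite R ∧ Nonempty (Rˣ ≃* G)

theorem result (j : ℕ) (hj : 3 ≤ j) :
    (Finite (DihedralGroup (2 ^ j)) ∧ IsPGroup 2 (DihedralGroup (2 ^ j)) ∧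
      ∃ a b : DihedralGroup (2 ^ j), a * b ≠ b * a) ∧
    ¬ Realizable (DihedralGroup (2 ^ j)) ∧
    ∀ (H : Type) (_ : Group H), Finite H → IsPGroup 2 H →
      ¬ Realizable (DihedralGroup (2 ^ j) × H) := by
  have hnz : NeZero (2 ^ j) := ⟨by positivity⟩
  have key : ∀ (H : Type) (_ : Group H), IsPGroup 2 H →
      ¬ Realizable (DihedralGroup (2 ^ j) × H) := by
    rintro H _ hH ⟨R, _, _, ⟨e⟩⟩
    exact X155.DihU.dihedral j hj hH e
  refine ⟨⟨inferInstance, ?_, ?_⟩, ?_, fun H _ _ hH => key H _ hH⟩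
  · refine IsPGroup.of_card (n := j + 1) ?_
    rw [DihedralGroup.nat_card]; ring
  · refine ⟨DihedralGroup.r 1, DihedralGroup.sr 0, fun h => ?_⟩
    rw [DihedralGroup.r_mul_sr, DihedralGroup.sr_mul_r] at h
    have h1 : (0 - 1 : ZMod (2 ^ j)) = 0 + 1 := DihedralGroup.sr.inj h
    have h2 : ((2 : ℕ) : ZMod (2 ^ j)) = 0 := by
      push_cast
      linear_combination -h1
    rw [ZMod.natCast_eq_zero_iff] at h2
    have h3 : 2 ^ 3 ∣ 2 ^ j := pow_dvd_pow 2 hj
    have h4 := h3.trans h2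
    norm_num at h4
  · rintro ⟨R, _, hfin, ⟨e⟩⟩
    refine key Unit inferInstance (fun g => ⟨0, by simp⟩) ⟨R, _, hfin, ⟨e.trans ?_⟩⟩
    exact (MulEquiv.prodUnique).symm

end Pool.Agent.Results.MP_c51eea_al.DihedralFactors
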